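import Pool.Agent.helper88.KG.Defs
import Pool.Agent.helper76.LP.Main2
import Pool.Agent.helper92.QR.QD

/-! # Project KG, module DS: descending to a divisor of `m` -/

namespace Pool.Agent.helper88.KG

open Finset Pool.Agent.helper76.LP Pool.Agent.helper88.EF

theorem DS_surj (m m' : ℕ) [NeZero m] [NeZero m'] (h : m' ∣ m) (x : ZMod m)
    (hx : addOrderOf x ∣ m') : ∃ y : ZMod m', emb m' m y = x := by
  obtain ⟨z, hz⟩ := exists_emb x rfl
  have hd0 : 0 < addOrderOf x :=
    Nat.pos_of_dvd_of_pos hx (Nat.pos_of_ne_zero (NeZero.ne m'))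
  refine ⟨(((z : ZMod (addOrderOf x)).val * (m' / addOrderOf x) : ℕ) : ZMod m'), ?_⟩
  rw [emb_natCast h]
  conv_rhs => rw [← hz]
  unfold emb
  congr 1
  rw [mul_assoc]
  congr 1
  obtain ⟨a, ha⟩ := hx
  obtain ⟨b, hb⟩ := h
  have hm'0 : 0 < m' := Nat.pos_of_ne_zero (NeZero.ne m')
  have e1 : m' / addOrderOf x = a := Nat.div_eq_of_eq_mul_right hd0 ha
  have e2 : m / m' = b := Nat.div_eq_of_eq_mul_right hm'0 hb
  have e3 : m / addOrderOf x = a * b := by
    refine Nat.div_eq_of_eq_mul_right hd0 ?_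
    rw [← mul_assoc, ← ha, ← hb]
  rw [e1, e2, e3]

open Pool.Agent.helper34.DH in
theorem descend (m m' : ℕ) [NeZero m] [NeZero m'] (h : m' ∣ m) (c : ZMod m → ℤ)
    (hT : TateF (anti c)) (hs : ∀ x, anti c x ≠ 0 → addOrderOf x ∣ m') :
    ∃ c' : ZMod m' → ℤ, TateF (anti c') ∧ (∀ y, anti c' y = anti c (emb m' m y)) ∧
      ∃ j : ℤ, cls m c = cls m' c' + j • hh := by
  have hm'0 : 0 < m' := Nat.pos_of_ne_zero (NeZero.ne m')
  have hm0 : 0 < m := Nat.pos_of_ne_zero (NeZero.ne m)
  set c' : ZMod m' → ℤ := fun y => c (emb m' m y) with hc'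
  have h1 : ∀ y, anti c' y = anti c (emb m' m y) := by
    intro y
    unfold anti
    rw [hc']
    simp only
    rw [emb_neg h]
  have h2 : ∀ x, anti c x = push m' m (anti c') x := by
    intro x
    by_cases hx : addOrderOf x ∣ m'
    · obtain ⟨y, rfl⟩ := DS_surj m m' h x hx
      rw [push_emb m' m h, h1]
    · have a1 : anti c x = 0 := by
        by_contra hne
        exact hx (hs x hne)
      have a2 : push m' m (anti c') x = 0 := by
        by_contra hne
        exact hx (push_order m' m h _ x hne)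
      rw [a1, a2]
  refine ⟨c', ?_, h1, ?_⟩
  · intro t'
    obtain ⟨t, rfl⟩ := ZMod.unitsMap_surjective h t'
    have h3 := hT t
    have h4 : ∑ x, anti c x * saw m ((t : ZMod m) * x) =
        ∑ y, anti c' y * saw m ((t : ZMod m) * emb m' m y) := by
      have h5 := PU_sum m' m (anti c') (fun x => saw m ((t : ZMod m) * x))
      simp only [smul_eq_mul] at h5
      rw [← h5]
      exact Finset.sum_congr rfl fun x _ => by rw [h2 x]
    rw [h4] at h3
    have h6 : ∀ y : ZMod m', saw m ((t : ZMod m) * emb m' m y) =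
        ((m / m' : ℕ) : ℤ) * saw m' (((ZMod.unitsMap h t : (ZMod m')ˣ) : ZMod m') * y) := by
      intro y
      rw [mul_emb h, PU_saw m' m h]
      rfl
    simp_rw [h6] at h3
    have h7 : ((m / m' : ℕ) : ℤ) * ∑ y : ZMod m', anti c' y *
        saw m' (((ZMod.unitsMap h t : (ZMod m')ˣ) : ZMod m') * y) = 0 := by
      rw [← h3, Finset.mul_sum]
      exact Finset.sum_congr rfl fun y _ => by ring
    have h8 : ((m / m' : ℕ) : ℤ) ≠ 0 := by
      have : 0 < m / m' := Nat.div_pos (Nat.le_of_dvd hm0 h) hm'0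
      omega
    exact (mul_eq_zero.1 h7).resolve_left h8
  · obtain ⟨j, hj⟩ := cls_even m (fun x => c x - push m' m c' x) (by
      intro x
      rw [anti_sub, anti_push m' m h, h2 x, sub_self])
    refine ⟨j, ?_⟩
    rw [cls_sub, cls_push m' m h] at hj
    rw [← hj]
    abel

end Pool.Agent.helper88.KG
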