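import Pool.Agent.helper88.KG.Defs
import Pool.Agent.helper13.EF.DL
import Pool.Agent.helper23.EF.RS
import Pool.Agent.helper52.EF.CT

/-! # Project KG, module K5: `k10`, `k11` -/

namespace Pool.Agent.helper88.KG

open Finset Pool.Agent.helper76.LP Pool.Agent.helper88.EF

/-- general scheme: a cube with nonzero difference gives a test function contradicting the
estimate -/
theorem K5_scheme (D q : ℕ) [NeZero D] (L : List ℕ) (ev : Prop) (K : ℤ) (f : (ZMod D)ˣ → ℤ)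
    (h : RK D q L ev K f) (h2 : ¬ q * q ∣ D) (V : ℕ → Set (ZMod D)ˣ)
    (hV : ∀ p ∈ L, Gam D p ≤ Subgroup.closure (V p)) (hVG : ∀ p ∈ L, ∀ u ∈ V p, u ∈ Gam D p)
    (h1 : (-1 : (ZMod D)ˣ) ∉ Pl (Gam D) (q :: L))
    (hno : ∀ v : ℕ → (ZMod D)ˣ, (∀ p ∈ L, v p ∈ V p) →
      ∀ (b : Bool) (S S' : Finset ℕ) (ξ : (ZMod D)ˣ), S ⊆ L.toFinset →
      S' ⊆ L.toFinset → ξ ∈ Gam D q →
      (2 : ZMod D) * ((∏ p ∈ S, v p : (ZMod D)ˣ) : ZMod D) =
        ((su b * ξ * ∏ p ∈ S', v p : (ZMod D)ˣ) : ZMod D) →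
      sg b * (-1) ^ (S.card + S'.card) = 1) : MDv (Gam D) L f := by
  have hnd := h.nd
  have hq := h.hq
  have hqD : q ∣ D := by
    have h3 : q ∈ D.primeFactors := by
      rw [← h.hL]
      simp
    exact Nat.dvd_of_mem_primeFactors h3
  rw [List.nodup_cons] at hnd
  refine mdv_of_dl (Gam D) L hnd.2 V hV f ?_
  intro v hv x
  by_cases hv1 : ∀ p ∈ L, v p ≠ 1
  · obtain ⟨ψ, hT, hC, hs⟩ := cube_test D q L h.nd h.hL v (fun p hp => hVG p hp _ (hv p hp)) hv1
      (Or.inl h1) x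
    have h3 := h.est ψ 1 hT (bd_one D q L v x ψ hC ev (fun _ _ => hno v hv))
    rw [hs f h.odd h.mdv] at h3
    by_contra hne
    have h4 : 1 ≤ |dl v L f x| := Int.one_le_abs hne
    rw [abs_mul, abs_mul] at h3
    have h5 : |(2 : ℤ)| = 2 := by norm_num
    have h6 : |(Nat.card (Gam D q) : ℤ)| = (q : ℤ) - 1 := by
      rw [card_Gam D q hq hqD, if_neg (by rw [pow_two]; exact h2)]
      have := hq.one_lt
      rw [Nat.cast_sub (by omega)]
      rw [abs_of_nonneg]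
      · simp
      · have : (1 : ℤ) < q := by exact_mod_cast hq.one_lt
        push_cast
        linarith
    rw [h5, h6] at h3
    have hK := h.hK
    have hq1 : (1 : ℤ) < q := by exact_mod_cast hq.one_lt
    nlinarith
  · push Not at hv1
    obtain ⟨p, hp, hp1⟩ := hv1
    rw [dl_erase v L p hp, hp1, one_mul, sub_self]

theorem K5_cast (D p : ℕ) [NeZero D] (hpD : p ∣ D) (u : (ZMod D)ˣ) :
    ZMod.castHom hpD (ZMod p) (u : ZMod D) = ((ZMod.unitsMap hpD u : (ZMod p)ˣ) : ZMod p) := by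
  rw [ZMod.unitsMap_def]
  rfl

theorem K5_prod (D r p : ℕ) [NeZero D] (hr : r ∣ D) (L : List ℕ) (S : Finset ℕ)
    (hS : S ⊆ L.toFinset) (v : ℕ → (ZMod D)ˣ) (hv : ∀ s ∈ L, v s ∈ Gam D s)
    (hdiv : ∀ s ∈ L, s ≠ p → r ∣ D / s) :
    ZMod.unitsMap hr (∏ s ∈ S, v s) = if p ∈ S then ZMod.unitsMap hr (v p) else 1 := by
  rw [map_prod]
  have h1 : ∀ s ∈ S, ZMod.unitsMap hr (v s) = if s = p then ZMod.unitsMap hr (v p) else 1 := by
    intro s hs
    split_ifs with h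
    · rw [h]
    · have hsL : s ∈ L := List.mem_toFinset.1 (hS hs)
      exact gam_one D s r hr (hdiv s hsL h) (v s) (hv s hsL)
  rw [Finset.prod_congr rfl h1, Finset.prod_ite_eq']

/-- reduction of the equation of a bad pair modulo `r`, where all directions except `p` are
trivial modulo `r` -/
theorem K5_red (D r p q : ℕ) [NeZero D] (hr : r ∣ D) (hq : r ∣ D / q) (L : List ℕ)
    (v : ℕ → (ZMod D)ˣ) (hv : ∀ s ∈ L, v s ∈ Gam D s) (hdiv : ∀ s ∈ L, s ≠ p → r ∣ D / s)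
    (b : Bool) (S S' : Finset ℕ) (ξ : (ZMod D)ˣ) (hS : S ⊆ L.toFinset) (hS' : S' ⊆ L.toFinset)
    (hξ : ξ ∈ Gam D q)
    (he : (2 : ZMod D) * ((∏ p ∈ S, v p : (ZMod D)ˣ) : ZMod D) =
        ((su b * ξ * ∏ p ∈ S', v p : (ZMod D)ˣ) : ZMod D))
    (a : ZMod r) (ha : ((ZMod.unitsMap hr (v p) : (ZMod r)ˣ) : ZMod r) = a) :
    (2 : ZMod r) * (if p ∈ S then a else 1) =
      (if b then -1 else 1) * (if p ∈ S' then a else 1) := by
  have h1 := congrArg (ZMod.castHom hr (ZMod r)) he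
  rw [map_mul, map_ofNat, K5_cast, K5_cast, map_mul, map_mul, K5_prod D r p hr L S hS v hv hdiv,
    K5_prod D r p hr L S' hS' v hv hdiv, gam_one D q r hr hq ξ hξ, mul_one, Units.val_mul] at h1
  have h2 : ((ZMod.unitsMap hr (su b) : (ZMod r)ˣ) : ZMod r) = if b then -1 else 1 := by
    unfold su
    cases b
    · simp
    · simp [ZMod.unitsMap_def]
  have h3 : ∀ T : Finset ℕ, (((if p ∈ T then ZMod.unitsMap hr (v p) else 1 : (ZMod r)ˣ)) : ZMod r) =
      if p ∈ T then a else 1 := by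
    intro T
    split_ifs
    · exact ha
    · rfl
  rw [h2, h3, h3] at h1
  exact h1

theorem K5_dvd_div (D q r : ℕ) (hr : r.Prime) (hp : q.Prime) (hqD : q ∣ D) (h : r * r ∣ D) :
    r ∣ D / q := by
  obtain ⟨e, rfl⟩ := hqD
  rw [Nat.mul_div_cancel_left _ hp.pos]
  by_cases hne : r = q
  · subst hne
    exact Nat.dvd_of_mul_dvd_mul_left hp.pos h
  · have h1 : r ∣ q * e := (Dvd.intro r rfl).trans h
    rcases (Nat.Prime.dvd_mul hr).1 h1 with h2 | h2
    · exact absurd ((Nat.prime_dvd_prime_iff_eq hr hp).1 h2) hne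
    · exact h2

theorem K5_dvd_div' (D q r : ℕ) (hr : r.Prime) (hp : q.Prime) (hne : r ≠ q) (hqD : q ∣ D)
    (h : r ∣ D) : r ∣ D / q := by
  obtain ⟨e, rfl⟩ := hqD
  rw [Nat.mul_div_cancel_left _ hp.pos]
  rcases (Nat.Prime.dvd_mul hr).1 h with h2 | h2
  · exact absurd ((Nat.prime_dvd_prime_iff_eq hr hp).1 h2) hne
  · exact h2

/-- the residues 2 and 6 modulo 7 -/
def K5_A : Set (ZMod 7)ˣ := {u | (u : ZMod 7) = 2 ∨ (u : ZMod 7) = 6}

theorem K5_top : Subgroup.closure K5_A = ⊤ := by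
  rw [eq_top_iff]
  intro x _
  have h : ∀ x : (ZMod 7)ˣ, ∃ n ∈ Finset.range 7, ∃ k ∈ Finset.range 7,
      ((⟨2, 4, by decide, by decide⟩ : (ZMod 7)ˣ)) ^ n *
        ((⟨6, 6, by decide, by decide⟩ : (ZMod 7)ˣ)) ^ k = x := by decide
  obtain ⟨n, -, k, -, rfl⟩ := h x
  refine Subgroup.mul_mem _ (Subgroup.pow_mem _ (Subgroup.subset_closure ?_) n)
    (Subgroup.pow_mem _ (Subgroup.subset_closure ?_) k)
  · exact Or.inl rfl
  · exact Or.inr rfl

theorem k10 (D q : ℕ) [NeZero D] (L : List ℕ) (ev : Prop) (K : ℤ) (f : (ZMod D)ˣ → ℤ)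
    (h : RK D q L ev K f) (ho : Odd D) (h2 : ¬ q * q ∣ D) (h9 : 9 ∣ D)
    (h7 : 7 ∣ D) (h49 : ¬ 7 * 7 ∣ D) : MDv (Gam D) L f := by
  have hq := h.hq
  have hq11 := h.h11
  have h3D : 3 ∣ D := (by norm_num : 3 ∣ 9).trans h9
  have h33 : 3 * 3 ∣ D := h9
  have hmem : ∀ p ∈ q :: L, p.Prime ∧ p ∣ D := by
    intro p hp
    have h1 : p ∈ D.primeFactors := by
      rw [← h.hL]; exact List.mem_toFinset.2 hp
    exact ⟨Nat.prime_of_mem_primeFactors h1, Nat.dvd_of_mem_primeFactors h1⟩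
  have hqD : q ∣ D := (hmem q List.mem_cons_self).2
  have h7L : 7 ∈ L := by
    have h1 : 7 ∈ (q :: L).toFinset := by
      rw [h.hL]
      exact Nat.mem_primeFactors.2 ⟨by norm_num, h7, NeZero.ne D⟩
    rw [List.mem_toFinset, List.mem_cons] at h1
    rcases h1 with h1 | h1
    · omega
    · exact h1
  refine K5_scheme D q L ev K f h h2
    (fun p => {v | v ∈ Gam D p ∧ (p = 7 → ZMod.unitsMap h7 v ∈ K5_A)}) ?_ (fun p _ u hu => hu.1)
    (neg_one_not D q L h.hL (Or.inl ⟨3, Nat.prime_three, le_rfl, h33⟩)) ?_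
  · intro p hp
    by_cases hp7 : p = 7
    · subst hp7
      refine (gam_closure D 7 (by norm_num) h7 h49 K5_A K5_top).trans ?_
      apply Subgroup.closure_mono
      rintro v ⟨hv1, hv2⟩
      exact ⟨hv1, fun _ => hv2⟩
    · intro v hv
      exact Subgroup.subset_closure ⟨hv, fun h => absurd h hp7⟩
  · intro v hv b S S' ξ hS hS' hξ he
    exfalso
    have hvG : ∀ p ∈ L, v p ∈ Gam D p := fun p hp => (hv p hp).1
    have hv7 := (hv 7 h7L).2 rfl
    -- modulo 3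
    have hm3 := K5_red D 3 0 q h3D (K5_dvd_div D q 3 Nat.prime_three hq hqD h33) L v hvG
      (fun s hs _ => K5_dvd_div D s 3 Nat.prime_three (hmem s (List.mem_cons_of_mem _ hs)).1
        (hmem s (List.mem_cons_of_mem _ hs)).2 h33) b S S' ξ hS hS' hξ he _ rfl
    have h0 : ∀ T : Finset ℕ, T ⊆ L.toFinset → 0 ∉ T := by
      intro T hT h0
      have := (hmem 0 (List.mem_cons_of_mem _ (List.mem_toFinset.1 (hT h0)))).1
      exact absurd this (by norm_num)
    rw [if_neg (h0 S hS), if_neg (h0 S' hS')] at hm3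
    -- modulo 7
    have hm7 := K5_red D 7 7 q h7 (K5_dvd_div' D q 7 (by norm_num) hq (by omega) hqD h7) L v hvG
      (fun s hs hne => K5_dvd_div' D s 7 (by norm_num) (hmem s (List.mem_cons_of_mem _ hs)).1
        (Ne.symm hne) (hmem s (List.mem_cons_of_mem _ hs)).2 h7) b S S' ξ hS hS' hξ he _ rfl
    cases b
    · simp at hm3
      exact absurd hm3 (by decide)
    · rcases hv7 with hv7 | hv7 <;> rw [hv7] at hm7 <;> revert hm7 <;>
        by_cases hs : 7 ∈ S <;> by_cases hs' : 7 ∈ S' <;>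
        simp only [hs, hs', if_true, if_false] <;> decide

theorem k11 (D q : ℕ) [NeZero D] (L : List ℕ) (ev : Prop) (K : ℤ) (f : (ZMod D)ˣ → ℤ)
    (h : RK D q L ev K f) (hD : D = 9 * q) : MDv (Gam D) L f := by
  have hq := h.hq
  have hq11 := h.h11
  have h9 : 9 ∣ D := ⟨q, hD⟩
  have h33 : 3 * 3 ∣ D := h9
  have h3D : 3 ∣ D := (by norm_num : 3 ∣ 9).trans h9
  have hmem : ∀ p ∈ q :: L, p.Prime ∧ p ∣ D := by
    intro p hp
    have h1 : p ∈ D.primeFactors := by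
      rw [← h.hL]; exact List.mem_toFinset.2 hp
    exact ⟨Nat.prime_of_mem_primeFactors h1, Nat.dvd_of_mem_primeFactors h1⟩
  have hqD : q ∣ D := (hmem q List.mem_cons_self).2
  have h2 : ¬ q * q ∣ D := by
    rw [hD]
    intro h1
    have h4 : q ∣ 9 := Nat.dvd_of_mul_dvd_mul_right hq.pos h1
    have := Nat.le_of_dvd (by norm_num) h4
    omega
  have hL3 : ∀ p ∈ L, p = 3 := by
    intro p hp
    have h1 := hmem p (List.mem_cons_of_mem _ hp)
    have h4 : p ≠ q := by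
      rintro rfl
      exact (List.nodup_cons.1 h.nd).1 hp
    rw [hD] at h1
    rcases (Nat.Prime.dvd_mul h1.1).1 h1.2 with h5 | h5
    · have h6 : p ∣ 3 * 3 := h5
      rcases (Nat.Prime.dvd_mul h1.1).1 h6 with h7 | h7 <;>
        exact (Nat.prime_dvd_prime_iff_eq h1.1 Nat.prime_three).1 h7
    · exact absurd ((Nat.prime_dvd_prime_iff_eq h1.1 hq).1 h5) h4
  refine K5_scheme D q L ev K f h h2 (fun p => (Gam D p : Set (ZMod D)ˣ))
    (fun p _ => Subgroup.subset_closure) (fun p _ u hu => hu)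
    (neg_one_not D q L h.hL (Or.inl ⟨3, Nat.prime_three, le_rfl, h33⟩)) ?_
  intro v hv b S S' ξ hS hS' hξ he
  have h9q : 9 ∣ D / q := by
    rw [hD, Nat.mul_div_cancel _ hq.pos]
  have hm3 := K5_red D 3 0 q h3D (K5_dvd_div D q 3 Nat.prime_three hq hqD h33) L v hv
      (fun s hs _ => K5_dvd_div D s 3 Nat.prime_three (hmem s (List.mem_cons_of_mem _ hs)).1
        (hmem s (List.mem_cons_of_mem _ hs)).2 h33) b S S' ξ hS hS' hξ he _ rfl
  have h0 : ∀ T : Finset ℕ, T ⊆ L.toFinset → 0 ∉ T := by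
    intro T hT h0
    have := (hmem 0 (List.mem_cons_of_mem _ (List.mem_toFinset.1 (hT h0)))).1
    exact absurd this (by norm_num)
  rw [if_neg (h0 S hS), if_neg (h0 S' hS')] at hm3
  have hb : b = true := by
    cases b
    · simp at hm3
      exact absurd hm3 (by decide)
    · rfl
  subst hb
  have hm9 := K5_red D 9 3 q h9 h9q L v hv (fun s hs hne => absurd (hL3 s hs) hne) true S S' ξ
    hS hS' hξ he _ rfl
  have hcard : ∀ T : Finset ℕ, T ⊆ L.toFinset → T.card = if 3 ∈ T then 1 else 0 := by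
    intro T hT
    have h1 : T ⊆ {3} := by
      intro x hx
      rw [Finset.mem_singleton]
      exact hL3 x (List.mem_toFinset.1 (hT hx))
    rcases Finset.subset_singleton_iff.1 h1 with rfl | rfl <;> simp
  rw [hcard S hS, hcard S' hS']
  have hu : ∀ u : (ZMod 9)ˣ, (2 : ZMod 9) * (u : ZMod 9) ≠ (-1) * (u : ZMod 9) := by
    intro u hu
    have h1 := congrArg (fun x => x * ((u⁻¹ : (ZMod 9)ˣ) : ZMod 9)) hu
    simp only [mul_assoc, Units.mul_inv, mul_one] at h1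
    exact absurd h1 (by decide)
  by_cases hs : 3 ∈ S <;> by_cases hs' : 3 ∈ S' <;>
    simp only [hs, hs', if_true, if_false] at hm9 ⊢
  · exact absurd hm9 (hu _)
  · simp [sg]
  · simp [sg]
  · exact absurd hm9 (by decide)

end Pool.Agent.helper88.KG
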